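import Pool.Agent.N977.P.Stm3
import Pool.Agent.N319.LE.Main

/-!
The maximal solution: it exists for all times, or up to a time at which the norm of `H³` is
unbounded (part MAXB of the project NSP of helper977).
-/

open MeasureTheory Set Filter Topology
open scoped ContDiff

namespace Pool.Agent.N353.NSP

open Pool.Agent.H356R3.NS (C3 Sym Fam at' nk pw dt one_le_pw pw_pos)
open Pool.Agent.Y5.E (Adm ASol2 Rapid Sk bl)
open Pool.Agent.N319.LE Pool.Agent.N279.LE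
open Pool.Agent.N980.NU (fco fs UU PP fco_sym fco_fr)
open H459R3.NS (V SPV K3 fr)
open Pool.Agent.N977.S (LowE un_leE)
open Pool.Agent.N977.K (SolK)
open Pool.Agent.N977.Q (Hn wt len un EE sol_spv)

/-! ### gluing solutions on smaller intervals -/

theorem solk_of_lt {ν T : ℝ} {K : (V → V) → (V → V) → V → V} {u : ℝ → V → V} {q : ℝ → V → ℝ}
    (h : ∀ T', 0 < T' → T' < T → ∃ (u' : ℝ → V → V) (q' : ℝ → V → ℝ), SolK ν T' K u' q' ∧
      (∀ t ∈ Ico 0 T', u' t = u t) ∧ ∀ t ∈ Ico 0 T', q' t = q t) : SolK ν T K u q := by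
  have key : ∀ t ∈ Ico 0 T, ∃ T', t < T' ∧ T' < T ∧ ∃ (u' : ℝ → V → V) (q' : ℝ → V → ℝ),
      SolK ν T' K u' q' ∧ (∀ t ∈ Ico 0 T', u' t = u t) ∧ ∀ t ∈ Ico 0 T', q' t = q t := by
    intro t ht
    refine ⟨(t + T) / 2, by linarith [ht.2], by linarith [ht.2],
      h _ (by linarith [ht.1, ht.2]) (by linarith [ht.2])⟩
  have hnb : ∀ (z : ℝ × V) (T' : ℝ), z.1 < T' → T' < T →
      Ico 0 T' ×ˢ (univ : Set V) ∈ 𝓝[Ico 0 T ×ˢ univ] z := by
    intro z T' hz hT'
    have h1 : {y : ℝ × V | y.1 < T'} ∈ 𝓝 z :=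
      (isOpen_lt continuous_fst continuous_const).mem_nhds hz
    filter_upwards [self_mem_nhdsWithin, mem_nhdsWithin_of_mem_nhds h1] with y hy hy2
    exact ⟨⟨hy.1.1, hy2⟩, mem_univ _⟩
  constructor
  · intro z hz
    obtain ⟨T', h1, h2, u', q', hs, hu, hq⟩ := key z.1 hz.1
    have hzT : z ∈ Ico 0 T' ×ˢ (univ : Set V) := ⟨⟨hz.1.1, h1⟩, mem_univ _⟩
    have h3 := (hs.smooth_u z hzT).congr (f₁ := fun z : ℝ × V => u z.1 z.2)
      (fun y hy => by rw [hu y.1 hy.1]) (by rw [hu z.1 hzT.1])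
    exact h3.mono_of_mem_nhdsWithin (hnb z T' h1 h2)
  · intro z hz
    obtain ⟨T', h1, h2, u', q', hs, hu, hq⟩ := key z.1 hz.1
    have hzT : z ∈ Ico 0 T' ×ˢ (univ : Set V) := ⟨⟨hz.1.1, h1⟩, mem_univ _⟩
    have h3 := (hs.smooth_p z hzT).congr (f₁ := fun z : ℝ × V => q z.1 z.2)
      (fun y hy => by rw [hq y.1 hy.1]) (by rw [hq z.1 hzT.1])
    exact h3.mono_of_mem_nhdsWithin (hnb z T' h1 h2)
  · intro t ht
    obtain ⟨T', h1, h2, u', q', hs, hu, hq⟩ := key t ht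
    rw [← hu t ⟨ht.1, h1⟩]
    exact hs.per_u t ⟨ht.1, h1⟩
  · intro t ht
    obtain ⟨T', h1, h2, u', q', hs, hu, hq⟩ := key t ht
    rw [← hq t ⟨ht.1, h1⟩]
    exact hs.per_p t ⟨ht.1, h1⟩
  · intro t ht
    obtain ⟨T', h1, h2, u', q', hs, hu, hq⟩ := key t ht
    rw [← hu t ⟨ht.1, h1⟩]
    exact hs.divfree t ⟨ht.1, h1⟩
  · intro t ht x i
    obtain ⟨T', h1, h2, u', q', hs, hu, hq⟩ := key t ⟨ht.1.le, ht.2⟩
    have h3 := hs.momentum t ⟨ht.1, h1⟩ x i
    have h4 : deriv (fun s => u s x i) t = deriv (fun s => u' s x i) t := by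
      apply Filter.EventuallyEq.deriv_eq
      filter_upwards [Ioo_mem_nhds ht.1 h1] with s hs'
      rw [hu s ⟨hs'.1.le, hs'.2⟩]
    rw [h4, ← hu t ⟨ht.1.le, h1⟩, ← hq t ⟨ht.1.le, h1⟩]
    exact h3

/-! ### solutions on the Fourier side -/

theorem ksolT {N : (Fq → C3) → (Fq → C3) → Fq → C3} (hadm : S_ADM) (hN : Nop N)
    (hS : ∀ x y, Rp x → Rp y → Sym (N x y) ∧ ∀ k, dt k (N x y k) = 0) {c : ℝ} (hc : 0 < c)
    {a : Fq → C3} (hsym : Sym a) (hdiv : ∀ k, dt k (a k) = 0) {z : Fq × Fin 3 → ℝ → ℝ}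
    (hz0 : ∀ i, z i 0 = hz a i) {T2 : ℝ} (hz2 : ASol2 (dI c) rI (ck N) T2 z)
    (hz3 : Rapid rI T2 z) {T : ℝ} (hT0 : 0 < T) (hTT : T < T2) :
    KSol N c T a (fun k t => hx (fun a => z a (max 0 (min t T))) k) := by
  obtain ⟨hA, hB⟩ := hadm N hN c hc
  have hsk : ∀ t ∈ Ico 0 T2, ∀ m, Sk rI m (fun a => z a t) := by
    intro t ht m
    obtain ⟨M, hM⟩ := hz3 m t ht.2
    exact (hM t ⟨ht.1, le_rfl⟩).1
  have hrp : ∀ t ∈ Ico 0 T2, Rp (hx (fun a => z a t)) := fun t ht => rp_hx (hsk t ht)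
  have key : ∀ t ∈ Ico 0 T2, ∀ k, HasDerivWithinAt (fun τ => hx (fun a => z a τ) k)
      (-(c * nk k ^ 2) • hx (fun a => z a t) k +
        N (hx fun a => z a t) (hx fun a => z a t) k) (Ico 0 T2) t := by
    intro t ht k
    have h1 := hx_deriv (fun a => hz2.deriv a t ht) k
    have h2 : (fun a => -(dI c a * z a t) + bl (ck N) (fun a => z a t) (fun a => z a t) a) =
        fun a => -(dI c a * z a t) + hz (N (hx fun a => z a t) (hx fun a => z a t)) a := by
      funext a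
      rw [hB _ _ (hsk t ht) (hsk t ht) a]
    rw [h2, hx_lin, hx_hz (hS _ _ (hrp t ht) (hrp t ht)).1] at h1
    exact h1
  have hdv : ∀ k, ∀ x ∈ Ico 0 T2, dt k (hx (fun a => z a x) k) = 0 := by
    intro k x hx
    obtain ⟨l, hl⟩ : ∃ l, l = c * nk k ^ 2 := ⟨_, rfl⟩
    have hE : ∀ t ∈ Ico 0 T2, HasDerivWithinAt (fun τ : ℝ => Real.exp (l * τ) •
        dt k (Pool.Agent.N319.LE.hx (fun a => z a τ) k)) 0 (Ico 0 T2) t := by
      intro t ht
      have h1 := dt_deriv k (key t ht k)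
      rw [dt_lin, (hS _ _ (hrp t ht) (hrp t ht)).2 k, add_zero, ← hl] at h1
      have h2 : HasDerivWithinAt (fun τ : ℝ => Real.exp (l * τ)) (Real.exp (l * t) * l)
          (Ico 0 T2) t := by
        have h3 : HasDerivAt (fun τ : ℝ => l * τ) l t := by
          simpa using (hasDerivAt_id t).const_mul l
        exact h3.exp.hasDerivWithinAt
      have h4 := h2.fun_smul h1
      have e : Real.exp (l * t) • -l • dt k (Pool.Agent.N319.LE.hx (fun a => z a t) k) +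
          (Real.exp (l * t) * l) • dt k (Pool.Agent.N319.LE.hx (fun a => z a t) k) = 0 := by
        rw [smul_smul, ← add_smul]
        have : Real.exp (l * t) * -l + Real.exp (l * t) * l = 0 := by ring
        rw [this, zero_smul]
      rw [e] at h4
      exact h4
    have hsub : Icc 0 x ⊆ Ico 0 T2 := fun t ht => ⟨ht.1, ht.2.trans_lt hx.2⟩
    have h1 := constant_of_has_deriv_right_zero (a := 0) (b := x)
      (fun t ht => ((hE t (hsub ht)).continuousWithinAt).mono hsub)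
      (fun t ht => (hE t (hsub ⟨ht.1, ht.2.le⟩)).mono_of_mem_nhdsWithin (by
        have h5 : Ico t T2 ∈ 𝓝[Ici t] t := Ico_mem_nhdsGE (ht.2.trans_le hx.2.le)
        exact Filter.mem_of_superset h5 (Ico_subset_Ico_left ht.1))) x ⟨hx.1, le_rfl⟩
    have h2 : Pool.Agent.N319.LE.hx (fun a => z a 0) = a := by
      have : (fun a => z a 0) = hz a := funext hz0
      rw [this, hx_hz hsym]
    beta_reduce at h1
    rw [h2, hdiv k, smul_zero] at h1
    exact (smul_eq_zero.1 h1).resolve_left (Real.exp_pos _).ne'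
  obtain ⟨cl, hcl⟩ : ∃ cl : ℝ → ℝ, cl = fun t => max 0 (min t T) := ⟨_, rfl⟩
  have hclc : Continuous cl := by
    rw [hcl]
    fun_prop
  have hclm : ∀ t, cl t ∈ Icc 0 T := by
    intro t
    rw [hcl]
    exact ⟨le_max_left _ _, max_le hT0.le (min_le_right _ _)⟩
  have hclm2 : ∀ t, cl t ∈ Ico 0 T2 := fun t => ⟨(hclm t).1, (hclm t).2.trans_lt hTT⟩
  have hcl1 : ∀ t ∈ Icc 0 T, cl t = t := by
    intro t ht
    rw [hcl]
    change max 0 (min t T) = t
    rw [min_eq_left ht.2, max_eq_right ht.1]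
  have hfam : (fun k t => hx (fun a => z a (max 0 (min t T))) k : Fam) =
      fun k t => hx (fun a => z a (cl t)) k := by
    rw [hcl]
  rw [hfam]
  refine ⟨?_, ?_, ?_, ?_, ?_, ?_⟩
  · intro k
    have : (fun a => z a (cl 0)) = hz a := by
      funext b
      rw [hcl1 0 ⟨le_rfl, hT0.le⟩]
      exact hz0 b
    change hx (fun a => z a (cl 0)) k = a k
    rw [this, hx_hz hsym]
  · intro k
    have h1 : ContinuousOn (fun τ => hx (fun a => z a τ) k) (Ico 0 T2) :=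
      fun t ht => (key t ht k).continuousWithinAt
    exact h1.comp_continuous hclc hclm2
  · intro m
    obtain ⟨M, hM⟩ := hz3 (m + 6) T hTT
    refine ⟨fun k => 2 * √M * (pw k ^ (m + 6))⁻¹, fun k => ?_, ?_, fun k t => ?_⟩
    · have := pw_pos k
      positivity
    · have e : (fun k : Fq => pw k ^ m * (2 * √M * (pw k ^ (m + 6))⁻¹)) =
          fun k => 2 * √M * (pw k ^ 6)⁻¹ := by
        funext k
        have := pw_pos k
        rw [pow_add]
        field_simp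
      rw [e]
      exact pw_sum.mul_left _
    · obtain ⟨h1, h2⟩ := hM (cl t) (hclm t)
      refine (hx_lev h1 h2 k).trans ?_
      have hp := pw_pos k
      have h3 : pw k ^ (m + 6) ≤ pw k ^ (3 * (m + 6)) :=
        pow_le_pow_right₀ (one_le_pw k) (by omega)
      have h4 : (0 : ℝ) < pw k ^ (m + 6) := pow_pos hp _
      rw [div_eq_mul_inv, ← mul_assoc]
      exact mul_le_mul_of_nonneg_left (inv_anti₀ h4 h3) (by positivity)
  · intro k t ht
    have ht2 : t ∈ Ico 0 T2 := ⟨ht.1.le, ht.2.trans hTT⟩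
    have h1 := (key t ht2 k).hasDerivAt (Ico_mem_nhds ht.1 ht2.2)
    have h2 : (fun τ => hx (fun a => z a (cl τ)) k) =ᶠ[𝓝 t] fun τ => hx (fun a => z a τ) k := by
      filter_upwards [Ioo_mem_nhds ht.1 ht.2] with τ hτ
      rw [hcl1 τ ⟨hτ.1.le, hτ.2.le⟩]
    have h3 : cl t = t := hcl1 t ⟨ht.1.le, ht.2.le⟩
    have h4 := h1.congr_of_eventuallyEq h2
    have h5 : at' (fun k t => hx (fun a => z a (cl t)) k) t = hx (fun a => z a t) := by
      funext k
      change hx (fun a => z a (cl t)) k = _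
      rw [h3]
    rw [h5]
    change HasDerivAt _ (-(c * nk k ^ 2) • hx (fun a => z a (cl t)) k + _) t
    rw [h3]
    exact h4
  · intro t k i
    exact hx_sym (fun a => z a (cl t)) k i
  · intro k t
    exact hdv k (cl t) (hclm2 t)

/-! ### the norms -/

theorem hz_hx (z : Fq × Fin 3 → ℝ) : hz (hx z) = z := by
  funext ⟨k, i⟩
  simp only [hz, hx]
  ring

theorem pw_le_len {k : Fq} (hk : k ≠ 0) : pw k ≤ 4 * len k := by
  have h1 : ∀ i, |(k i : ℝ)| ≤ len k := by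
    intro i
    unfold len
    apply Real.abs_le_sqrt
    exact Finset.single_le_sum (f := fun j => (k j : ℝ) ^ 2) (fun j _ => sq_nonneg _)
      (Finset.mem_univ i)
  have h2 : pw k = 1 + ∑ i, |(k i : ℝ)| := rfl
  have h3 := Pool.Agent.N977.Q.one_le_len hk
  rw [h2, Fin.sum_univ_three]
  linarith [h1 0, h1 1, h1 2]

theorem wt_three {k : Fq} (hk : k ≠ 0) : wt 3 0 k = len k ^ 3 := by
  unfold wt
  rw [if_neg hk, Real.rpow_zero, mul_one]
  exact_mod_cast Real.rpow_natCast (len k) 3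

theorem nk_le {z : Fq × Fin 3 → ℝ} (hzs : Sk rI 1 z) {w : V → V} (hw : SPV w)
    (hwz : ∀ k i, fr (fun x => w x i) k = hx z k i) :
    Pool.Agent.Y5.E.nk rI 1 z ≤ 3 * (4 * un w 0 ^ 2 + 4 ^ 7 * Hn 3 0 w ^ 2) := by
  have hval : ∀ k i, |z (k, i)| ≤ 2 * un w k := by
    intro k i
    have h1 : z (k, i) = (hx z k i).re - (hx z k i).im := congrFun (hz_hx z).symm (k, i)
    have h2 := Pool.Agent.N977.Q.fr_le_un w k i
    rw [hwz] at h2
    rw [h1]
    have h3 := Complex.abs_re_le_norm (hx z k i)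
    have h4 := Complex.abs_im_le_norm (hx z k i)
    have h5 : |(hx z k i).re - (hx z k i).im| ≤ |(hx z k i).re| + |(hx z k i).im| := abs_sub _ _
    linarith
  have hterm : ∀ k i, (rI (k, i) ^ 1 * z (k, i)) ^ 2 ≤
      (if k = 0 then 4 * un w 0 ^ 2 else 0) + 4 ^ 7 * (wt 3 0 k * un w k) ^ 2 := by
    intro k i
    have h1 := hval k i
    have h2 : (rI (k, i) ^ 1 * z (k, i)) ^ 2 = pw k ^ 6 * |z (k, i)| ^ 2 := by
      unfold rI
      rw [sq_abs]
      ring
    have h3 : |z (k, i)| ^ 2 ≤ 4 * un w k ^ 2 := by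
      have := pow_le_pow_left₀ (abs_nonneg _) h1 2
      rw [mul_pow] at this
      linarith
    rw [h2]
    by_cases hk : k = 0
    · subst hk
      rw [if_pos rfl]
      have h4 : pw (0 : Fq) = 1 := by
        have : pw (0 : Fq) = 1 + ∑ i, |(((0 : Fq) i : ℤ) : ℝ)| := rfl
        rw [this]
        simp
      rw [h4]
      have h5 : 0 ≤ 4 ^ 7 * (wt 3 0 (0 : Fq) * un w 0) ^ 2 := by positivity
      linarith
    · rw [if_neg hk, zero_add, wt_three hk]
      have h4 : pw k ^ 6 ≤ (4 * len k) ^ 6 := pow_le_pow_left₀ (pw_pos k).le (pw_le_len hk) 6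
      calc pw k ^ 6 * |z (k, i)| ^ 2 ≤ (4 * len k) ^ 6 * (4 * un w k ^ 2) :=
            mul_le_mul h4 h3 (sq_nonneg _) (by positivity)
        _ = 4 ^ 7 * (len k ^ 3 * un w k) ^ 2 := by ring
  have hs1 : Summable fun k : Fq => (if k = 0 then 4 * un w 0 ^ 2 else 0) :=
    summable_of_ne_finset_zero (s := {0}) fun k hk => by
      rw [Finset.mem_singleton] at hk
      rw [if_neg hk]
  have hs2 : Summable fun k : Fq => 4 ^ 7 * (wt 3 0 k * un w k) ^ 2 :=
    (Pool.Agent.N977.Q.wun_summable hw 3 0).mul_left _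
  have hg0 : ∀ k : Fq, 0 ≤ (if k = 0 then 4 * un w 0 ^ 2 else 0) +
      4 ^ 7 * (wt 3 0 k * un w k) ^ 2 := by
    intro k
    split_ifs <;> positivity
  have hsum : ∑' k : Fq, ((if k = 0 then 4 * un w 0 ^ 2 else 0) +
      4 ^ 7 * (wt 3 0 k * un w k) ^ 2) = 4 * un w 0 ^ 2 + 4 ^ 7 * Hn 3 0 w ^ 2 := by
    rw [hs1.tsum_add hs2, tsum_mul_left, ← Pool.Agent.N977.Q.Hn_sq_un, tsum_ite_eq]
  obtain ⟨g, hg⟩ : ∃ g : Fq → ℝ, g = fun k => (if k = 0 then 4 * un w 0 ^ 2 else 0) +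
      4 ^ 7 * (wt 3 0 k * un w k) ^ 2 := ⟨_, rfl⟩
  have hgs : Summable g := by rw [hg]; exact hs1.add hs2
  have hg1 : ∀ k, 0 ≤ g k := by rw [hg]; exact hg0
  have hg2 : ∀ p : Fq × Fin 3, (rI p ^ 1 * z p) ^ 2 ≤ g p.1 := by
    rw [hg]
    exact fun p => hterm p.1 p.2
  have hg3 : ∑' k, g k = 4 * un w 0 ^ 2 + 4 ^ 7 * Hn 3 0 w ^ 2 := by rw [hg]; exact hsum
  unfold Pool.Agent.Y5.E.nk
  refine hzs.tsum_le_of_sum_le fun s => ?_
  calc ∑ p ∈ s, (rI p ^ 1 * z p) ^ 2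
      ≤ ∑ p ∈ s, g p.1 := Finset.sum_le_sum fun p _ => hg2 p
    _ ≤ ∑ p ∈ (s.image Prod.fst) ×ˢ (Finset.univ : Finset (Fin 3)), g p.1 :=
        Finset.sum_le_sum_of_subset_of_nonneg (fun p hp => by
          rw [Finset.mem_product]
          exact ⟨Finset.mem_image_of_mem _ hp, Finset.mem_univ _⟩) fun p _ _ => hg1 p.1
    _ = 3 * ∑ k ∈ s.image Prod.fst, g k := by
        rw [Finset.sum_product, Finset.mul_sum]
        refine Finset.sum_congr rfl fun k _ => ?_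
        show ∑ _y : Fin 3, g k = 3 * g k
        rw [Finset.sum_const, Finset.card_univ, Fintype.card_fin, nsmul_eq_mul]
        norm_num
    _ ≤ 3 * (4 * un w 0 ^ 2 + 4 ^ 7 * Hn 3 0 w ^ 2) := by
        rw [← hg3]
        exact mul_le_mul_of_nonneg_left (hgs.sum_le_tsum _ fun k _ => hg1 k)
          (by norm_num)

/-! ### the theorem -/

theorem maxb : Pool.Agent.N977.P.S_MAXB := by
  intro p δ K hp hK ν hν v hv hdv
  have hADM : S_ADM := Pool.Agent.N79.LE.adm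
  have hTTN : S_TTN := Pool.Agent.N645.LE.ttn
  have hCONV : S_CONV := Pool.Agent.N966.LE.conv_
  have hKOP : S_KOP := Pool.Agent.N878.LE.kop
  obtain ⟨hNK, hNK2⟩ := hKOP p δ K hp hK
  obtain ⟨hNB, hNB2⟩ := hCONV
  have hN : Nop (fun x y => NB x y + NK K x y) := Nop.add hNB hNK
  have hS : ∀ x y, Rp x → Rp y → Sym (NB x y + NK K x y) ∧ ∀ k, dt k ((NB x y + NK K x y) k) = 0 :=
    fun x y hx hy => ⟨(hNB2 x y).1.add (hNK2 x y hx hy).1, fun k => by
      have e1 := (hNB2 x y).2 k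
      have e2 := (hNK2 x y hx hy).2 k
      unfold dt at e1 e2 ⊢
      simp only [Pi.add_apply, mul_add, Finset.sum_add_distrib, e1, e2, add_zero]⟩
  have hc : 0 < 4 * Real.pi ^ 2 * ν := by positivity
  obtain ⟨hA, hB⟩ := hADM (fun x y => NB x y + NK K x y) hN (4 * Real.pi ^ 2 * ν) hc
  obtain ⟨-, hex⟩ := Pool.Agent.Y37.NE.t_ABS2 (Fq × Fin 3) (dI (4 * Real.pi ^ 2 * ν)) rI
    (ck (fun x y => NB x y + NK K x y)) hA
  obtain ⟨z, hz0, hz1⟩ := hex (hz (fco v)) (fun m => sk_hz (rp_fco hv) m)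
  -- the fields
  set u₀ : Fam := fun k t => hx (fun a => z a t) k with hu₀
  have hKS : ∀ T2, ASol2 (dI (4 * Real.pi ^ 2 * ν)) rI (ck (fun x y => NB x y + NK K x y)) T2 z →
      Rapid rI T2 z → ∀ T, 0 < T → T < T2 →
      KSol (fun x y => NB x y + NK K x y) (4 * Real.pi ^ 2 * ν) T (fco v)
        (fun k t => hx (fun a => z a (max 0 (min t T))) k) := fun T2 h2 h3 T hT0 hTT =>
    ksolT hADM hN hS hc (fco_sym v) (dt_fco hv hdv) hz0 h2 h3 hT0 hTT
  have hat : ∀ T t : ℝ, t ∈ Ico 0 T → ∀ k, hx (fun a => z a (max 0 (min t T))) k = u₀ k t := by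
    intro T t ht k
    rw [min_eq_left ht.2.le, max_eq_right ht.1]
  have hUU : ∀ T t : ℝ, t ∈ Ico 0 T →
      UU (fun k t => hx (fun a => z a (max 0 (min t T))) k) t = UU u₀ t := by
    intro T t ht
    funext x i
    unfold UU
    simp only [hat T t ht]
  have hPP : ∀ T t : ℝ, t ∈ Ico 0 T →
      PP (fun k t => hx (fun a => z a (max 0 (min t T))) k) t = PP u₀ t := by
    intro T t ht
    funext x
    unfold PP
    congr 2
    funext k
    simp only [Pool.Agent.H356R3.NS.PF, Pool.Agent.H356R3.NS.cvv, Pool.Agent.H356R3.NS.cf',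
      hat T t ht]
  have hsol : ∀ T2, ASol2 (dI (4 * Real.pi ^ 2 * ν)) rI (ck (fun x y => NB x y + NK K x y)) T2 z →
      Rapid rI T2 z → SolK ν T2 K (UU u₀) (PP u₀) := by
    intro T2 h2 h3
    apply solk_of_lt
    intro T' hT0 hTT
    exact ⟨_, _, fld hTTN ⟨hNB, hNB2⟩ hKOP p δ K hp hK ν T' (fco v) _ hν hT0
      (hKS T2 h2 h3 T' hT0 hTT), fun t ht => hUU T' t ht, fun t ht => hPP T' t ht⟩
  refine ⟨UU u₀, PP u₀, ?_, ?_⟩
  · funext x i
    show (fs (fun k => u₀ k 0 i) x).re = v x i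
    have h1 : (fun a => z a 0) = hz (fco v) := funext hz0
    have e : (fun k => u₀ k 0 i) = fun k => fco v k i := by
      funext k
      show hx (fun a => z a 0) k i = _
      rw [h1, hx_hz (fco_sym v)]
    rw [e, ← (spv_iff.1 hv).inv x i, Complex.ofReal_re]
  · rcases hz1 with h | ⟨T, hT, h2, h3, h4⟩
    · exact Or.inl fun T => hsol T (h T).1 (h T).2
    · refine Or.inr ⟨T, hT, hsol T h2 h3, fun ⟨M, hM⟩ => h4 ?_⟩
      have hs := hsol T h2 h3
      refine ⟨3 * (4 * EE 0 (UU u₀ 0) + 4 ^ 7 * M ^ 2), fun t ht => ?_⟩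
      have ht2 : 0 < (t + T) / 2 := by linarith [ht.1, ht.2]
      have ht3 : (t + T) / 2 < T := by linarith [ht.2]
      have ht4 : t ∈ Ico 0 ((t + T) / 2) := ⟨ht.1, by linarith [ht.2]⟩
      have hk := hKS T h2 h3 _ ht2 ht3
      have hsk : Sk rI 1 (fun a => z a t) := by
        obtain ⟨M, hM⟩ := h3 1 t ht.2
        exact (hM t ⟨ht.1, le_rfl⟩).1
      have hfr : ∀ k i, fr (fun x => UU u₀ t x i) k = hx (fun a => z a t) k i := by
        intro k i
        have h5 := congrFun (congrFun (hk.fco t) k) i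
        rw [hUU _ _ ht4, fco_fr] at h5
        rw [h5]
        show hx (fun a => z a (max 0 (min t ((t + T) / 2)))) k i = _
        rw [hat _ _ ht4]
      refine (nk_le hsk (sol_spv hs ht) hfr).trans ?_
      have h6 := un_leE hν.le hK hs ht 0
      have h7 := hM t ht
      have h8 : Hn 3 0 (UU u₀ t) ^ 2 ≤ M ^ 2 :=
        pow_le_pow_left₀ (Pool.Agent.N977.Q.Hn_nonneg _ _ _) h7 2
      linarith

end Pool.Agent.N353.NSP
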